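import Pool.Agent.H39.OD.Targets
import Pool.Agent.H57.CP.Targets

/-!
Rows ORD, ELS and MDC of the board odp_modules (MP_397744_co).
-/

set_option autoImplicit false

namespace Pool.Agent.H19.OD

open Pool.Agent.H57.CP Pool.Agent.H39.TO Pool.Agent.H39.OD

/-- Row MDC. -/
theorem pf_MDC : T_MDC := by
  intro A B D h hD hh hz
  have hs : 0 < 1 - D ^ 2 := by linarith
  have hs2 : Real.sqrt (1 - D ^ 2) ^ 2 = 1 - D ^ 2 := Real.sq_sqrt hs.le
  have hs0 : Real.sqrt (1 - D ^ 2) ≠ 0 := (Real.sqrt_pos.2 hs).ne'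
  have hz2 : Real.sqrt (z2 A B D h) ^ 2 = z2 A B D h := Real.sq_sqrt hz
  have hq : ((B + A * D) / Real.sqrt (1 - D ^ 2)) ^ 2 = (B + A * D) ^ 2 / (1 - D ^ 2) := by
    rw [div_pow, hs2]
  have hm : mk o.1 (m0 A B D h) = -h := by
    simp only [mk, o, m0, Matrix.cons_val]
    ring
  refine ⟨⟨?_, ?_, ?_, ?_, ?_, ?_, ?_, ?_, ?_⟩, hm⟩
  · have e : mk (m0 A B D h) (m0 A B D h) =
        h ^ 2 - A ^ 2 - ((B + A * D) / Real.sqrt (1 - D ^ 2)) ^ 2 - Real.sqrt (z2 A B D h) ^ 2 := by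
      simp only [mk, m0, Matrix.cons_val]
      ring
    rw [e, hq, hz2]
    unfold z2
    ring
  · simp only [mk, m1, Matrix.cons_val]
    ring
  · have e : mk (m2 D) (m2 D) = - D ^ 2 - Real.sqrt (1 - D ^ 2) ^ 2 := by
      simp only [mk, m2, Matrix.cons_val]
      ring
    rw [e, hs2]
    ring
  · simp only [mk, m0, m1, Matrix.cons_val]
    ring
  · have e : mk (m0 A B D h) (m2 D) =
        - A * D + (B + A * D) / Real.sqrt (1 - D ^ 2) * Real.sqrt (1 - D ^ 2) := by
      simp only [mk, m0, m2, Matrix.cons_val]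
      ring
    rw [e, div_mul_cancel₀ _ hs0]
    ring
  · simp only [mk, m1, m2, Matrix.cons_val]
    ring
  · rw [hm]
    linarith
  · simp only [mk, o, m1, Matrix.cons_val]
    ring
  · simp only [mk, o, m2, Matrix.cons_val]
    ring

lemma ch_symm (x y : H3) : ch x y = ch y x := by
  unfold ch mk
  ring

lemma isIso_closure {S : Set (Equiv.Perm H3)} (hS : ∀ g ∈ S, IsIso g) :
    ∀ g ∈ Subgroup.closure S, IsIso g := by
  intro g hg
  induction hg using Subgroup.closure_induction with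
  | mem x hx => exact hS x hx
  | one => intro x y; rfl
  | mul a b _ _ ha hb => intro x y; exact (ha (b x) (b y)).trans (hb x y)
  | inv a _ ha =>
    intro x y
    have h := ha (a⁻¹ x) (a⁻¹ y)
    have e1 : a (a⁻¹ x) = x := Equiv.apply_symm_apply a x
    have e2 : a (a⁻¹ y) = y := Equiv.apply_symm_apply a y
    rw [e1, e2] at h
    exact h.symm

/-- Row ELS. -/
theorem pf_ELS : T_ELS := by
  intro v r a b hB
  have hiso : ∀ g ∈ Subgroup.closure {r, a, b}, IsIso g := by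
    refine isIso_closure ?_
    rintro g (rfl | rfl | rfl)
    · exact hB.ir
    · exact hB.ia
    · exact hB.ib
  ext d
  constructor
  · rintro ⟨e, ⟨g, hg, rfl⟩, x, hx, y, hy, hxy, rfl⟩
    have hg' := hiso g hg
    rw [Set.image_pair] at hx hy
    rw [Set.mem_singleton_iff]
    rcases hx with rfl | rfl <;> rcases hy with rfl | rfl
    · exact absurd rfl hxy
    · exact hg' _ _
    · rw [ch_symm]
      exact hg' _ _
    · exact absurd rfl hxy
  · intro hd
    rw [Set.mem_singleton_iff] at hd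
    refine ⟨{v, r v}, ⟨1, Subgroup.one_mem _, ?_⟩, v, Set.mem_insert _ _, r v,
      Set.mem_insert_of_mem _ rfl, hB.rv.symm, hd⟩
    rw [Set.image_pair]
    rfl

/-- order of the product of two reflections of `H3` -/
lemma oE_rf (hRFX : T_RFX) (hORR : T_ORR) (hSPN : T_SPN) {x y : V4} {k N : ℕ}
    (hx : mk x x = -1) (hy : mk y y = -1) (hN : 2 ≤ N) (hk : Nat.Coprime k N)
    (h : (mk x y) ^ 2 = (Real.cos (k * Real.pi / N)) ^ 2) : oE (rf x * rf y) = (N : ℕ∞) := by
  have hORR' := hORR x y k N hx hy hN hk h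
  obtain ⟨hX, -⟩ := hRFX x hx
  obtain ⟨hY, -⟩ := hRFX y hy
  have hp : ∀ (m : ℕ) (z : H3), (((rf x * rf y) ^ m) z).1 = ((refl x * refl y) ^ m) z.1 := by
    intro m
    induction m with
    | zero => intro z; rfl
    | succ m ih =>
      intro z
      rw [pow_succ', pow_succ']
      have e1 : ((rf x * rf y) * (rf x * rf y) ^ m) z = rf x (rf y (((rf x * rf y) ^ m) z)) := rfl
      have e2 : ((refl x * refl y) * (refl x * refl y) ^ m) z.1 =
        refl x (refl y (((refl x * refl y) ^ m) z.1)) := rfl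
      rw [e1, e2, hX, hY, ih]
  have hiff : ∀ m : ℕ, (rf x * rf y) ^ m = 1 ↔ N ∣ m := by
    intro m
    rw [← hORR' m]
    constructor
    · intro h1
      refine hSPN _ _ (fun z => ?_)
      rw [← hp m z, h1]
      rfl
    · intro h1
      refine Equiv.ext (fun z => Subtype.ext ?_)
      rw [hp m z, h1]
      rfl
  have hord : orderOf (rf x * rf y) = N := by
    refine Nat.dvd_antisymm ?_ ?_
    · exact orderOf_dvd_of_pow_eq_one ((hiff N).2 dvd_rfl)
    · exact (hiff _).1 (pow_orderOf_eq_one _)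
  unfold oE
  rw [hord, if_neg (by omega)]

/-- Row ORD. -/
theorem pf_ORD (hRFX : T_RFX) (hORR : T_ORR) (hSPN : T_SPN) : T_ORD2 := by
  intro p hp i hv v n0 n1 n2 hC
  have hp5 := hv.p5
  have h2p : Nat.Coprime 2 p := Nat.coprime_two_left.2 hp
  have key := fun {x y : V4} {k N : ℕ} => @oE_rf hRFX hORR hSPN x y k N
  have e2 : (0 : ℝ) = Real.cos (((1 : ℕ) : ℝ) * Real.pi / (2 : ℕ)) := by
    push_cast
    rw [one_mul, Real.cos_pi_div_two]
  have e3 : (1 / 2 : ℝ) = Real.cos (((1 : ℕ) : ℝ) * Real.pi / (3 : ℕ)) := by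
    push_cast
    rw [one_mul, Real.cos_pi_div_three]
  have eA : cA p = Real.cos (((1 : ℕ) : ℝ) * Real.pi / p) := by
    unfold cA
    push_cast
    rw [one_mul]
  refine ⟨?_, ?_, ?_⟩
  · refine key (k := 1) hC.u0 hC.u1 (by omega) (Nat.coprime_one_left p) ?_
    rw [hC.a, eA]
  · have hk : ∃ k : ℕ, Nat.Coprime k p ∧ cB p i = Real.cos ((k : ℝ) * Real.pi / p) := by
      unfold cB
      fin_cases i
      · exact ⟨2, h2p, by simp⟩
      · exact ⟨2, h2p, by simp⟩
      · exact ⟨3, (Nat.prime_three.coprime_iff_not_dvd).2 (hv.i2 rfl), by simp⟩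
      · exact ⟨4, Nat.Coprime.pow_left 2 h2p, by simp⟩
      · exact ⟨2, h2p, by simp⟩
    obtain ⟨k, hk1, hk2⟩ := hk
    refine key (k := k) hC.u0 hC.u2 (by omega) hk1 ?_
    rw [hC.b, hk2]
  · have hk : 2 ≤ dg p i ∧ cD p i = Real.cos (((1 : ℕ) : ℝ) * Real.pi / (dg p i : ℕ)) := by
      unfold cD dg
      fin_cases i
      · exact ⟨le_rfl, e2⟩
      · exact ⟨by change 2 ≤ p; omega, eA⟩
      · exact ⟨by change 2 ≤ 3; omega, e3⟩
      · exact ⟨by change 2 ≤ p; omega, eA⟩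
      · exact ⟨by change 2 ≤ 3; omega, e3⟩
    refine key (k := 1) hC.u1 hC.u2 hk.1 (Nat.coprime_one_left _) ?_
    rw [hC.d, hk.2]

end Pool.Agent.H19.OD
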